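import Pool.Agent.Y139.SM.Fin2

/-! The mean values of the powers of a function on the primes that is close, in the mean square, to a
virtual Artin character. -/

set_option autoImplicit false

namespace Pool.Agent.Q284.TP

open Complex Filter Topology ComplexConjugate NumberField IsDedekindDomain
  Pool.Agent.W401.Cheb Pool.Agent.W540.BE Pool.Agent.W353.L1 Pool.Agent.Y139.SM
open Pool.Agent.H341R2 (lam lam_tendsto)

theorem pow_sub_le {b : ℝ} {z w : ℂ} (hz : ‖z‖ ≤ b) (hw : ‖w‖ ≤ b) (r : ℕ) :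
    ‖z ^ r - w ^ r‖ ≤ r * b ^ (r - 1) * ‖z - w‖ := by
  have h0 : 0 ≤ b := (norm_nonneg z).trans hz
  induction r with
  | zero => simp
  | succ r ih =>
    have e : z ^ (r + 1) - w ^ (r + 1) = z ^ r * (z - w) + (z ^ r - w ^ r) * w := by ring
    rw [e]
    refine (norm_add_le _ _).trans ?_
    rw [norm_mul, norm_mul, norm_pow, Nat.add_sub_cancel]
    have h1 : ‖z‖ ^ r * ‖z - w‖ ≤ b ^ r * ‖z - w‖ :=
      mul_le_mul_of_nonneg_right (pow_le_pow_left₀ (norm_nonneg _) hz r) (norm_nonneg _)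
    have h2 : ‖z ^ r - w ^ r‖ * ‖w‖ ≤ r * b ^ (r - 1) * ‖z - w‖ * b :=
      mul_le_mul ih hw (norm_nonneg _) (by positivity)
    have h3 : (r : ℝ) * b ^ (r - 1) * ‖z - w‖ * b = r * b ^ r * ‖z - w‖ := by
      rcases r with _ | r
      · simp
      · rw [Nat.add_sub_cancel, pow_succ]
        ring
    rw [h3] at h2
    push_cast
    nlinarith

section
variable {F : Type} [Field F] [NumberField F]

/-- powers -/
noncomputable def powF {U : Subgroup (GK F)} [U.Normal] (A : CF U) (r : ℕ) : CF U where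
  f q := A.f q ^ r
  cls a x := by rw [A.cls]
  herm q := by rw [A.herm, map_pow]

/-- the square of the imaginary part -/
noncomputable def imF {U : Subgroup (GK F)} [U.Normal] (A : CF U) : CF U where
  f q := (((A.f q).im ^ 2 : ℝ) : ℂ)
  cls a x := by rw [A.cls]
  herm q := by
    rw [A.herm, Complex.conj_im, neg_sq, Complex.conj_ofReal]

variable (U : Subgroup (GK F)) [U.Normal] (hU : IsOpen (U : Set (GK F))) [Finite (GK F ⧸ U)]
  {κ : Type*} (K : Finset κ) {n : κ → ℕ}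
  (ρ : ∀ k, Representation ℂ (GK F) (Fin (n k) → ℂ)) (hρ : ∀ k, ∀ u ∈ U, ρ k u = 1)
  (σ : HeightOneSpectrum (𝓞 F) → GK F) (hσ : ∀ v, IsFrob v (σ v))

/-- the virtual character `∑ y_k χ_k` -/
noncomputable def dF (y : κ → ℝ) : CF U where
  f q := ∑ k ∈ K, (y k : ℂ) * (chF U ρ hρ k).f q
  cls a x := by
    refine Finset.sum_congr rfl fun k _ => ?_
    rw [(chF U ρ hρ k).cls]
  herm q := by
    rw [map_sum]
    refine Finset.sum_congr rfl fun k _ => ?_
    rw [(chF U ρ hρ k).herm, map_mul, Complex.conj_ofReal]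

theorem gg_dF (y : κ → ℝ) (v : HeightOneSpectrum (𝓞 F)) :
    gg U K ρ hρ (fun _ => 0) σ y v = (dF U K ρ hρ y).f (QuotientGroup.mk (σ v)) := by
  unfold gg dF
  refine Finset.sum_congr rfl fun k _ => ?_
  rw [zz_zero, mul_one]

variable {T : HeightOneSpectrum (𝓞 F) → ℝ} {s : ℝ} (hs : 0 ≤ s) (hT : ∀ v, |T v| ≤ s)
  {x : κ → ℝ → ℝ} (hx : ∀ k ∈ K, Tendsto (fun ε : ℝ =>
    (EP (nm F) ε fun v => T v * RR (ρ k) 0 σ v) / lam ε - x k ε) (𝓝[>] 0) (𝓝 0))
  {S : ℝ → ℝ} (hS : Tendsto (fun ε : ℝ =>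
    (EP (nm F) ε fun v => T v * T v) / lam ε - S ε) (𝓝[>] 0) (𝓝 0))

/-- the square of the distance -/
noncomputable def Qv (T : HeightOneSpectrum (𝓞 F) → ℝ) (y : κ → ℝ)
    (v : HeightOneSpectrum (𝓞 F)) : ℝ :=
  ‖(T v : ℂ) - (dF U K ρ hρ y).f (QuotientGroup.mk (σ v))‖ ^ 2

theorem dF_bound (y : κ → ℝ) (q : GK F ⧸ U) :
    ‖(dF U K ρ hρ y).f q‖ ≤ ∑ k ∈ K, |y k| * n k := by
  unfold dF
  refine (norm_sum_le _ _).trans (Finset.sum_le_sum fun k _ => ?_)
  rw [norm_mul, Complex.norm_real, Real.norm_eq_abs]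
  refine mul_le_mul_of_nonneg_left ?_ (abs_nonneg _)
  obtain ⟨g, hg⟩ := QuotientGroup.mk_surjective q⁻¹
  have h3 : (chF U ρ hρ k).f q = (ρ k).character g := by
    change (qrep U (ρ k) (hρ k)).character q⁻¹ = _
    rw [← hg]
    rfl
  rw [h3]
  exact norm_char_le U (ρ k) (hρ k) g

include hU hσ hs hT hx hS in
/-- the mean value of the square of the distance -/
theorem Qv_mean (hirr : ∀ k ∈ K, (ρ k).IsIrreducible)
    (hne : ∀ k ∈ K, ∀ l ∈ K, k ≠ l → IsEmpty ((ρ k).Equiv (ρ l))) (y : κ → ℝ) :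
    Tendsto (fun ε : ℝ => (EP (nm F) ε (Qv U K ρ hρ σ T y)) / lam ε -
      (S ε - 2 * ∑ k ∈ K, y k * x k ε + ∑ k ∈ K, y k ^ 2)) (𝓝[>] 0) (𝓝 0) := by
  classical
  have hN : NormSys (nm F) := normSys
  set R2 : κ → κ → HeightOneSpectrum (𝓞 F) → ℝ := fun k l =>
    ((chF U ρ hρ k).mul (chF U ρ hρ l).star).R ((fun _ => (0 : ℝ)) k - (fun _ => (0 : ℝ)) l) σ
    with hR2
  have hkl : ∀ k ∈ K, ∀ l ∈ K, Has (R2 k l) (if k = l then 1 else 0) := fun k hk l hl =>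
    has_kl U hU K ρ hρ (fun _ => 0) σ hσ hirr (fun k hk l hl h _ => hne k hk l hl h) hk hl
  -- the mean value of the square of the virtual character
  have hD : Has (fun v => ‖gg U K ρ hρ (fun _ => 0) σ y v‖ ^ 2) (∑ k ∈ K, y k ^ 2) := by
    have h1 : Has (fun v => ∑ k ∈ K, ∑ l ∈ K, y k * y l * R2 k l v)
        (∑ k ∈ K, ∑ l ∈ K, y k * y l * (if k = l then 1 else 0)) :=
      Pool.Agent.W353.AT.Has.sum K fun k hk => Pool.Agent.W353.AT.Has.sum K fun l hl =>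
        (hkl k hk l hl).const_mul _
    refine h1.congr (fun v => (sq_gg U K ρ hρ (fun _ => 0) σ y v).symm) ?_
    refine Finset.sum_congr rfl fun k hk => ?_
    have e : ∀ l ∈ K, y k * y l * (if k = l then (1 : ℝ) else 0) =
        if k = l then y k * y l else 0 := by
      intro l _
      split_ifs <;> ring
    rw [Finset.sum_congr rfl e, Finset.sum_ite_eq, if_pos hk]
    ring
  obtain ⟨⟨bD, hbD⟩, hDl⟩ := hD
  have hRb : ∀ k ∈ K, ∀ v, |RR (ρ k) 0 σ v| ≤ n k := fun k _ v =>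
    abs_RR_le U (ρ k) (hρ k) _ _ _
  -- the sum
  have hsum := tendsto_finsetSum K fun k hk => (hx k hk).const_mul (y k)
  simp only [mul_zero, Finset.sum_const_zero] at hsum
  have hlim := (hS.add (hsum.const_mul (-2))).add (hDl.sub_const (∑ k ∈ K, y k ^ 2))
  rw [mul_zero, add_zero, sub_self, add_zero] at hlim
  refine hlim.congr' ?_
  filter_upwards [self_mem_nhdsWithin] with ε hε
  have hε0 : (0 : ℝ) < ε := hε
  have e1 : Qv U K ρ hρ σ T y = fun v => T v * T v + ((-2) * ∑ k ∈ K, y k * (T v * RR (ρ k) 0 σ v) +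
      ‖gg U K ρ hρ (fun _ => 0) σ y v‖ ^ 2) := by
    funext v
    unfold Qv
    rw [← gg_dF]
    have h1 : (gg U K ρ hρ (fun _ => 0) σ y v).re = ∑ k ∈ K, y k * RR (ρ k) 0 σ v :=
      re_gg U K ρ hρ (fun _ => 0) σ y v
    have h2 : ∑ k ∈ K, y k * (T v * RR (ρ k) 0 σ v) =
        T v * (gg U K ρ hρ (fun _ => 0) σ y v).re := by
      rw [h1, Finset.mul_sum]
      refine Finset.sum_congr rfl fun k _ => ?_
      ring
    rw [h2]
    set w := gg U K ρ hρ (fun _ => 0) σ y v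
    rw [← Complex.normSq_eq_norm_sq, ← Complex.normSq_eq_norm_sq, Complex.normSq_apply,
      Complex.normSq_apply, Complex.sub_re, Complex.sub_im, Complex.ofReal_re, Complex.ofReal_im]
    ring
  have hTT : ∀ v, |T v * T v| ≤ s * s := fun v => by
    rw [abs_mul]
    exact mul_le_mul (hT v) (hT v) (abs_nonneg _) hs
  have hTR : ∀ k ∈ K, ∀ v, |y k * (T v * RR (ρ k) 0 σ v)| ≤ |y k| * (s * n k) := by
    intro k hk v
    rw [abs_mul, abs_mul]
    exact mul_le_mul_of_nonneg_left (mul_le_mul (hT v) (hRb k hk v) (abs_nonneg _) hs)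
      (abs_nonneg _)
  have hc1 : ∀ v, |∑ k ∈ K, y k * (T v * RR (ρ k) 0 σ v)| ≤ ∑ k ∈ K, |y k| * (s * n k) := fun v =>
    (Finset.abs_sum_le_sum_abs _ _).trans (Finset.sum_le_sum fun k hk => hTR k hk v)
  have hc2 : ∀ v, |(-2) * ∑ k ∈ K, y k * (T v * RR (ρ k) 0 σ v)| ≤
      2 * ∑ k ∈ K, |y k| * (s * n k) := fun v => by
    rw [abs_mul, abs_neg, abs_two]
    exact mul_le_mul_of_nonneg_left (hc1 v) (by norm_num)
  have hc3 : ∀ v, |(-2) * ∑ k ∈ K, y k * (T v * RR (ρ k) 0 σ v) +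
      ‖gg U K ρ hρ (fun _ => 0) σ y v‖ ^ 2| ≤ 2 * (∑ k ∈ K, |y k| * (s * n k)) + bD := fun v =>
    (abs_add_le _ _).trans (add_le_add (hc2 v) (hbD v))
  have e2 : EP (nm F) ε (Qv U K ρ hρ σ T y) = (EP (nm F) ε fun v => T v * T v) +
      ((-2) * ∑ k ∈ K, y k * (EP (nm F) ε fun v => T v * RR (ρ k) 0 σ v) +
      EP (nm F) ε fun v => ‖gg U K ρ hρ (fun _ => 0) σ y v‖ ^ 2) := by
    rw [e1, EP_add hN hε0 hTT hc3, EP_add hN hε0 hc2 hbD, EP_const_mul,
      EP_sum hN hε0 K (fun k v => y k * (T v * RR (ρ k) 0 σ v)) (fun k => |y k| * (s * n k)) hTR]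
    congr 3
    refine Finset.sum_congr rfl fun k _ => ?_
    rw [EP_const_mul]
  rw [e2]
  have e3 : ∑ k ∈ K, y k * ((EP (nm F) ε fun v => T v * RR (ρ k) 0 σ v) / lam ε - x k ε) =
      (∑ k ∈ K, y k * (EP (nm F) ε fun v => T v * RR (ρ k) 0 σ v)) / lam ε -
        ∑ k ∈ K, y k * x k ε := by
    rw [Finset.sum_div, ← Finset.sum_sub_distrib]
    refine Finset.sum_congr rfl fun k _ => ?_
    ring
  rw [e3]
  ring

variable {n' : ℕ} (ψ : Representation ℂ (GK F) (Fin n' → ℂ)) (hψ : ∀ u ∈ U, ψ u = 1)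

/-- the class function `D^r ψ` -/
noncomputable def prodF (y : κ → ℝ) (r : ℕ) : CF U :=
  (powF (dF U K ρ hρ y) r).mul (chF U (fun _ : Unit => ψ) (fun _ => hψ) ())

include hU hσ hs hT hx hS in
/-- **The powers of a function near a virtual character.** -/
theorem core (hirr : ∀ k ∈ K, (ρ k).IsIrreducible)
    (hne : ∀ k ∈ K, ∀ l ∈ K, k ≠ l → IsEmpty ((ρ k).Equiv (ρ l))) (y : κ → ℝ) {b : ℝ}
    (hb : s ≤ b) (hDb : ∀ q, ‖(dF U K ρ hρ y).f q‖ ≤ b) (r : ℕ) {Z : ℝ → ℝ}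
    (hZ : Tendsto (fun ε : ℝ => (EP (nm F) ε fun v => T v ^ r * RR ψ 0 σ v) / lam ε - Z ε)
      (𝓝[>] 0) (𝓝 0)) {η : ℝ} (hη : 0 < η) :
    ∀ᶠ ε : ℝ in 𝓝[>] 0, |Z ε - (avC U (prodF U K ρ hρ ψ hψ y r).f).re| ≤
      r * b ^ (r - 1) * n' * Real.sqrt (S ε - 2 * ∑ k ∈ K, y k * x k ε + ∑ k ∈ K, y k ^ 2) + η := by
  classical
  have hN : NormSys (nm F) := normSys
  have hb0 : 0 ≤ b := hs.trans hb
  set C : ℝ := r * b ^ (r - 1) * n' with hC
  have hC0 : 0 ≤ C := by positivity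
  have hQ := Qv_mean U hU K ρ hρ σ hσ hs hT hx hS hirr hne y
  obtain ⟨⟨bP, hbP⟩, hPl⟩ : Has ((prodF U K ρ hρ ψ hψ y r).R 0 σ)
      (avC U (prodF U K ρ hρ ψ hψ y r).f).re := by
    have := (prodF U K ρ hρ ψ hψ y r).has hU σ hσ 0
    rwa [if_pos rfl] at this
  set A : ℝ := (avC U (prodF U K ρ hρ ψ hψ y r).f).re with hA
  -- the small quantities
  set G : ℝ := Real.sqrt (8 * b ^ 2 + 2) with hG
  have hG0 : 0 ≤ G := Real.sqrt_nonneg _
  obtain ⟨θ, hθ0, hθ1, hθ⟩ : ∃ θ : ℝ, 0 < θ ∧ θ ≤ 1 ∧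
      C * (Real.sqrt θ + G * θ) + 2 * θ ≤ η := by
    have h1 : Tendsto (fun θ : ℝ => C * (Real.sqrt θ + G * θ) + 2 * θ) (𝓝[>] 0)
        (𝓝 (C * (Real.sqrt 0 + G * 0) + 2 * 0)) := by
      have h2 : Continuous fun θ : ℝ => C * (Real.sqrt θ + G * θ) + 2 * θ := by fun_prop
      exact (h2.tendsto 0).mono_left nhdsWithin_le_nhds
    rw [Real.sqrt_zero, mul_zero, mul_zero, add_zero, add_zero, mul_zero] at h1
    have h3 := h1.eventually_lt_const hη
    have h4 : ∀ᶠ θ : ℝ in 𝓝[>] 0, θ ≤ 1 := by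
      have : Set.Iic (1 : ℝ) ∈ 𝓝 (0 : ℝ) := Iic_mem_nhds (by norm_num)
      exact nhdsWithin_le_nhds this
    obtain ⟨θ, h5, h6, h7⟩ := (h3.and (h4.and self_mem_nhdsWithin)).exists
    exact ⟨θ, h7, h6, h5.le⟩
  filter_upwards [(Metric.tendsto_nhds.1 hQ) θ hθ0, (Metric.tendsto_nhds.1 hZ) θ hθ0,
    (Metric.tendsto_nhds.1 hPl) θ hθ0, (Metric.tendsto_nhds.1 (EP_one F)) θ hθ0,
    lam_tendsto.eventually_gt_atTop 0, self_mem_nhdsWithin] with ε k1 k2 k3 k4 k5 k6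
  have hε0 : (0 : ℝ) < ε := k6
  rw [Real.dist_eq, sub_zero] at k1 k2
  rw [Real.dist_eq] at k3 k4
  set Qn : ℝ := S ε - 2 * ∑ k ∈ K, y k * x k ε + ∑ k ∈ K, y k ^ 2 with hQn
  set E1 : ℝ := (EP (nm F) ε fun _ => 1) / lam ε with hE1
  set EQ : ℝ := (EP (nm F) ε (Qv U K ρ hρ σ T y)) / lam ε with hEQ
  -- bounds
  have hQv0 : ∀ v, 0 ≤ Qv U K ρ hρ σ T y v := fun v => sq_nonneg _
  have hdist : ∀ v, ‖(T v : ℂ) - (dF U K ρ hρ y).f (QuotientGroup.mk (σ v))‖ ≤ 2 * b := by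
    intro v
    refine (norm_sub_le _ _).trans ?_
    rw [Complex.norm_real, Real.norm_eq_abs]
    linarith [(hT v).trans hb, hDb (QuotientGroup.mk (σ v))]
  have hQvb : ∀ v, |Qv U K ρ hρ σ T y v| ≤ 4 * b ^ 2 := by
    intro v
    rw [abs_of_nonneg (hQv0 v)]
    unfold Qv
    calc ‖(T v : ℂ) - (dF U K ρ hρ y).f (QuotientGroup.mk (σ v))‖ ^ 2 ≤ (2 * b) ^ 2 :=
          pow_le_pow_left₀ (norm_nonneg _) (hdist v) 2
      _ = _ := by ring
  have hEQ4 : EQ ≤ 4 * b ^ 2 * E1 := by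
    rw [hEQ, hE1, ← mul_div_assoc, ← EP_const_mul]
    refine div_le_div_of_nonneg_right ?_ k5.le
    refine EP_mono (B := 4 * b ^ 2) (B' := 4 * b ^ 2) hQvb (fun v => ?_) (fun v => ?_) hε0
    · rw [mul_one, abs_of_nonneg (by positivity)]
    · rw [mul_one]
      exact (le_abs_self _).trans (hQvb v)
  have hE1b : |E1 - 1| < θ := k4
  have hE1' := abs_lt.1 hE1b
  have k1' := abs_lt.1 k1
  -- the parameter
  set q : ℝ := max Qn 0 + θ with hq
  have hq0 : 0 < q := by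
    have : 0 ≤ max Qn 0 := le_max_right _ _
    rw [hq]
    linarith
  have hEQq : EQ ≤ q := by
    have : Qn ≤ max Qn 0 := le_max_left _ _
    rw [hq]
    linarith [k1'.2]
  have hqG : q ≤ 8 * b ^ 2 + 2 := by
    have h1 : Qn ≤ 8 * b ^ 2 + 1 := by
      have h2 : 4 * b ^ 2 * E1 ≤ 4 * b ^ 2 * 2 :=
        mul_le_mul_of_nonneg_left (by linarith) (by positivity)
      linarith [k1'.1]
    have h3 : max Qn 0 ≤ 8 * b ^ 2 + 1 := max_le h1 (by positivity)
    rw [hq]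
    linarith
  set t : ℝ := Real.sqrt q with ht
  have ht0 : 0 < t := Real.sqrt_pos.2 hq0
  have htt : t * t = q := Real.mul_self_sqrt hq0.le
  have htG : t ≤ G := Real.sqrt_le_sqrt hqG
  -- the mean value of the distance
  have hpt : ∀ v, ‖(T v : ℂ) - (dF U K ρ hρ y).f (QuotientGroup.mk (σ v))‖ ≤
      t / 2 * 1 + 1 / (2 * t) * Qv U K ρ hρ σ T y v := by
    intro v
    set w := ‖(T v : ℂ) - (dF U K ρ hρ y).f (QuotientGroup.mk (σ v))‖ with hw
    have h1 : Qv U K ρ hρ σ T y v = w ^ 2 := rfl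
    rw [h1]
    have h2 : t / 2 * 1 + 1 / (2 * t) * w ^ 2 - w = (t - w) ^ 2 / (2 * t) := by
      field_simp
      ring
    have h3 : 0 ≤ (t - w) ^ 2 / (2 * t) := by positivity
    linarith
  -- the difference
  set Δ : HeightOneSpectrum (𝓞 F) → ℝ := fun v => T v ^ r * RR ψ 0 σ v +
    (-1) * (prodF U K ρ hρ ψ hψ y r).R 0 σ v with hΔ
  have hΔb : ∀ v, |Δ v| ≤
      C * ‖(T v : ℂ) - (dF U K ρ hρ y).f (QuotientGroup.mk (σ v))‖ := by
    intro v
    set D : ℂ := (dF U K ρ hρ y).f (QuotientGroup.mk (σ v)) with hD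
    set c' : ℂ := (chF U (fun _ : Unit => ψ) (fun _ => hψ) ()).f (QuotientGroup.mk (σ v)) with hc'
    have e1 : RR ψ 0 σ v = c'.re := by
      have h1 := chF_R U (fun _ : Unit => ψ) (fun _ => hψ) () 0 σ v
      rw [← h1]
      unfold CF.R
      rw [zz_zero, mul_one]
    have e2 : (prodF U K ρ hρ ψ hψ y r).R 0 σ v = (D ^ r * c').re := by
      unfold CF.R
      rw [zz_zero, mul_one]
      rfl
    have e3 : Δ v = (((T v : ℂ) ^ r - D ^ r) * c').re := by
      rw [hΔ]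
      simp only
      rw [e1, e2, sub_mul, Complex.sub_re, ← Complex.ofReal_pow, Complex.re_ofReal_mul]
      ring
    have hc1 : ‖c'‖ ≤ n' := norm_char_le U ψ hψ (σ v)⁻¹
    rw [e3]
    refine (Complex.abs_re_le_norm _).trans ?_
    rw [norm_mul]
    have h2 := pow_sub_le (z := (T v : ℂ)) (w := D) (b := b) (by
      rw [Complex.norm_real, Real.norm_eq_abs]
      exact (hT v).trans hb) (hDb _) r
    calc ‖(T v : ℂ) ^ r - D ^ r‖ * ‖c'‖ ≤ (r * b ^ (r - 1) * ‖(T v : ℂ) - D‖) * n' :=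
          mul_le_mul h2 hc1 (norm_nonneg _) (by positivity)
      _ = _ := by
          rw [hC]
          ring
  have hmaj : ∀ v, |Δ v| ≤ C * (t / 2) * 1 + C * (1 / (2 * t)) * Qv U K ρ hρ σ T y v := by
    intro v
    refine (hΔb v).trans ?_
    have := mul_le_mul_of_nonneg_left (hpt v) hC0
    linarith
  have g1 : |EP (nm F) ε Δ| ≤ EP (nm F) ε fun v => C * (t / 2) * 1 + C * (1 / (2 * t)) *
      Qv U K ρ hρ σ T y v := by
    refine EP_abs_le (B := C * (t / 2) * 1 + C * (1 / (2 * t)) * (4 * b ^ 2)) (fun v => ?_)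
      hmaj hε0
    rw [abs_of_nonneg (by have := hQv0 v; positivity)]
    have := (le_abs_self _).trans (hQvb v)
    have h2 : 0 ≤ C * (1 / (2 * t)) := by positivity
    nlinarith
  have g2 : (EP (nm F) ε fun v => C * (t / 2) * 1 + C * (1 / (2 * t)) * Qv U K ρ hρ σ T y v) =
      C * (t / 2) * (EP (nm F) ε fun _ => 1) + C * (1 / (2 * t)) *
        EP (nm F) ε (Qv U K ρ hρ σ T y) := by
    rw [EP_add hN hε0 (φ := fun _ => C * (t / 2) * 1) (B := C * (t / 2) * 1)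
      (ψ := fun v => C * (1 / (2 * t)) * Qv U K ρ hρ σ T y v)
      (B' := C * (1 / (2 * t)) * (4 * b ^ 2)) (fun v => by rw [abs_of_nonneg (by positivity)])
      (fun v => by
        rw [abs_mul, abs_of_nonneg (by positivity : 0 ≤ C * (1 / (2 * t)))]
        exact mul_le_mul_of_nonneg_left (hQvb v) (by positivity)), EP_const_mul, EP_const_mul]
  have g3 : |(EP (nm F) ε Δ) / lam ε| ≤ C * (t / 2) * E1 + C * (1 / (2 * t)) * EQ := by
    rw [abs_div, abs_of_pos k5]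
    rw [g2] at g1
    calc |EP (nm F) ε Δ| / lam ε ≤ (C * (t / 2) * (EP (nm F) ε fun _ => 1) + C * (1 / (2 * t)) *
        EP (nm F) ε (Qv U K ρ hρ σ T y)) / lam ε := div_le_div_of_nonneg_right g1 k5.le
      _ = _ := by
          rw [hE1, hEQ]
          ring
  have hTr : ∀ v, |T v ^ r * RR ψ 0 σ v| ≤ s ^ r * n' := fun v => by
    rw [abs_mul, abs_pow]
    exact mul_le_mul (pow_le_pow_left₀ (abs_nonneg _) (hT v) r) (abs_RR_le U ψ hψ _ _ _)
      (abs_nonneg _) (by positivity)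
  have g4 : (EP (nm F) ε Δ) / lam ε = (EP (nm F) ε fun v => T v ^ r * RR ψ 0 σ v) / lam ε -
      (EP (nm F) ε ((prodF U K ρ hρ ψ hψ y r).R 0 σ)) / lam ε := by
    rw [hΔ, EP_add hN hε0 hTr (B' := bP) (fun v => by
      rw [abs_mul, abs_neg, abs_one, one_mul]
      exact hbP v), EP_const_mul]
    ring
  have g5 : C * (t / 2) * E1 + C * (1 / (2 * t)) * EQ ≤ C * (t * (1 + θ)) := by
    have h1 : C * (t / 2) * E1 ≤ C * (t / 2) * (1 + θ) :=
      mul_le_mul_of_nonneg_left (by linarith) (by positivity)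
    have h2 : C * (1 / (2 * t)) * EQ ≤ C * (1 / (2 * t)) * q :=
      mul_le_mul_of_nonneg_left hEQq (by positivity)
    have h3 : C * (1 / (2 * t)) * q = C * (t / 2) := by
      rw [← htt]
      field_simp
    have h4 : C * (t / 2) * (1 + θ) + C * (t / 2) ≤ C * (t * (1 + θ)) := by
      have h5 : 0 ≤ C * (t / 2) * θ := by positivity
      have h6 : C * (t * (1 + θ)) - (C * (t / 2) * (1 + θ) + C * (t / 2)) = C * (t / 2) * θ := by
        ring
      linarith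
    linarith
  have g6 : t ≤ Real.sqrt Qn + Real.sqrt θ := by
    rw [ht, hq]
    have h1 : Real.sqrt (max Qn 0) = Real.sqrt Qn := by
      rcases le_total Qn 0 with h | h
      · rw [max_eq_right h, Real.sqrt_zero, Real.sqrt_eq_zero_of_nonpos h]
      · rw [max_eq_left h]
    rw [← h1]
    have h2 : 0 ≤ max Qn 0 := le_max_right _ _
    rw [Real.sqrt_le_iff]
    refine ⟨by positivity, ?_⟩
    have h3 := Real.mul_self_sqrt h2
    have h4 := Real.mul_self_sqrt hθ0.le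
    have h5 : 0 ≤ Real.sqrt (max Qn 0) * Real.sqrt θ := by positivity
    have h6 : (Real.sqrt (max Qn 0) + Real.sqrt θ) ^ 2 = Real.sqrt (max Qn 0) *
      Real.sqrt (max Qn 0) + Real.sqrt θ * Real.sqrt θ +
      2 * (Real.sqrt (max Qn 0) * Real.sqrt θ) := by ring
    rw [h6, h3, h4]
    linarith
  have g7 : |Z ε - A| ≤ |(EP (nm F) ε Δ) / lam ε| + 2 * θ := by
    rw [g4]
    have e1 : Z ε - A = ((EP (nm F) ε fun v => T v ^ r * RR ψ 0 σ v) / lam ε -
        (EP (nm F) ε ((prodF U K ρ hρ ψ hψ y r).R 0 σ)) / lam ε) -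
        ((EP (nm F) ε fun v => T v ^ r * RR ψ 0 σ v) / lam ε - Z ε) +
        ((EP (nm F) ε ((prodF U K ρ hρ ψ hψ y r).R 0 σ)) / lam ε - A) := by ring
    rw [e1]
    refine (abs_add_le _ _).trans ?_
    have h2 := abs_sub ((EP (nm F) ε fun v => T v ^ r * RR ψ 0 σ v) / lam ε -
        (EP (nm F) ε ((prodF U K ρ hρ ψ hψ y r).R 0 σ)) / lam ε)
        ((EP (nm F) ε fun v => T v ^ r * RR ψ 0 σ v) / lam ε - Z ε)
    linarith
  have g8 : C * (t * (1 + θ)) ≤ C * Real.sqrt Qn + C * (Real.sqrt θ + G * θ) := by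
    have h1 : t * (1 + θ) ≤ Real.sqrt Qn + (Real.sqrt θ + G * θ) := by
      have h2 : t * θ ≤ G * θ := mul_le_mul_of_nonneg_right htG hθ0.le
      have h3 : t * (1 + θ) = t + t * θ := by ring
      rw [h3]
      linarith
    have h4 := mul_le_mul_of_nonneg_left h1 hC0
    have h5 : C * (Real.sqrt Qn + (Real.sqrt θ + G * θ)) =
      C * Real.sqrt Qn + C * (Real.sqrt θ + G * θ) := by ring
    rw [h5] at h4
    exact h4
  linarith

end

end Pool.Agent.Q284.TP
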