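import Pool.Agent.Y139.SM.Defs

/-! Virtual characters with real coefficients and their mean values: definitions. -/

set_option autoImplicit false

namespace Pool.Agent.Q284.TP

/-- The virtual character `g ↦ ∑ y_k tr χ_k(g)` with real coefficients `y_k`. -/
noncomputable def virt {G : Type} [Group G] {κ : Type} [Fintype κ] {n : κ → ℕ}
    (χ : ∀ k, Representation ℂ G (Fin (n k) → ℂ)) (y : κ → ℝ) (g : G) : ℂ :=
  ∑ k, (y k : ℂ) * (χ k).character g

/-- For a complex function `f` on the group `G` and a normal subgroup `U` of finite index (`f`
constant on the cosets of `U`): the mean value of the real part of `f` over the finite group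
`G / U`. -/
noncomputable def meanRe {G : Type} [Group G] (U : Subgroup G) (f : G → ℂ) : ℝ :=
  (∑ᶠ q : G ⧸ U, (f q.out).re) / Nat.card (G ⧸ U)

end Pool.Agent.Q284.TP
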