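import Pool.Agent.Q284.TP.Core

/-! The case of equality in Bessel's inequality: the function on the primes is a virtual character in
the mean square, and so all the mean values of its powers are known. -/

set_option autoImplicit false

namespace Pool.Agent.Q284.TP

open Complex Filter Topology ComplexConjugate NumberField IsDedekindDomain
  Pool.Agent.W401.Cheb Pool.Agent.W540.BE Pool.Agent.W353.L1 Pool.Agent.Y139.SM
open Pool.Agent.H341R2 (lam lam_tendsto)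

theorem le_of_pow {a s C : ℝ} (ha : 0 ≤ a) (hs : 0 ≤ s)
    (h : ∀ j : ℕ, 1 ≤ j → a ^ (2 * j) ≤ C * s ^ (2 * j)) : a ≤ s := by
  by_contra hcon
  rw [not_le] at hcon
  rcases hs.eq_or_lt with h0 | h0
  · subst h0
    have h1 := h 1 le_rfl
    rw [zero_pow (by norm_num), mul_zero] at h1
    have h2 : 0 < a ^ (2 * 1) := by positivity
    linarith
  · have h1 : 1 < a ^ 2 / s ^ 2 := by
      rw [one_lt_div (by positivity)]
      exact pow_lt_pow_left₀ hcon hs (by norm_num)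
    obtain ⟨j, hj⟩ := pow_unbounded_of_one_lt (max C 0) h1
    have h2 := h (j + 1) (by omega)
    have h3 : C < (a ^ 2 / s ^ 2) ^ (j + 1) := by
      have h4 : max C 0 < (a ^ 2 / s ^ 2) ^ (j + 1) :=
        hj.trans_le (pow_le_pow_right₀ h1.le (Nat.le_succ j))
      exact (le_max_left _ _).trans_lt h4
    rw [div_pow, lt_div_iff₀ (by positivity), ← pow_mul, ← pow_mul] at h3
    linarith

section
variable {F : Type} [Field F] [NumberField F]

variable (U : Subgroup (GK F)) [U.Normal] (hU : IsOpen (U : Set (GK F))) [Finite (GK F ⧸ U)]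
  {κ : Type*} (K : Finset κ) {n : κ → ℕ}
  (ρ : ∀ k, Representation ℂ (GK F) (Fin (n k) → ℂ)) (hρ : ∀ k, ∀ u ∈ U, ρ k u = 1)
  (σ : HeightOneSpectrum (𝓞 F) → GK F) (hσ : ∀ v, IsFrob v (σ v))

variable {T : HeightOneSpectrum (𝓞 F) → ℝ} {s : ℝ} (hs : 0 ≤ s) (hT : ∀ v, |T v| ≤ s)
  {x : κ → ℝ → ℝ} (hx : ∀ k ∈ K, Tendsto (fun ε : ℝ =>
    (EP (nm F) ε fun v => T v * RR (ρ k) 0 σ v) / lam ε - x k ε) (𝓝[>] 0) (𝓝 0))
  {S : ℝ → ℝ} (hS : Tendsto (fun ε : ℝ =>
    (EP (nm F) ε fun v => T v * T v) / lam ε - S ε) (𝓝[>] 0) (𝓝 0))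
  {n' : ℕ} (ψ : Representation ℂ (GK F) (Fin n' → ℂ)) (hψ : ∀ u ∈ U, ψ u = 1)
  (hirr : ∀ k ∈ K, (ρ k).IsIrreducible)
  (hne : ∀ k ∈ K, ∀ l ∈ K, k ≠ l → IsEmpty ((ρ k).Equiv (ρ l))) {y : κ → ℝ}
  (hy : ∀ k ∈ K, Tendsto (x k) (𝓝[>] 0) (𝓝 (y k)))
  (hM : Tendsto S (𝓝[>] 0) (𝓝 (∑ k ∈ K, y k ^ 2)))

include hy hM in
theorem Qn_lim : Tendsto (fun ε => S ε - 2 * ∑ k ∈ K, y k * x k ε + ∑ k ∈ K, y k ^ 2) (𝓝[>] 0)
    (𝓝 0) := by
  have h1 := tendsto_finsetSum K fun k hk => (hy k hk).const_mul (y k)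
  have h2 := (hM.sub (h1.const_mul 2)).add_const (∑ k ∈ K, y k ^ 2)
  have e : ∑ k ∈ K, y k ^ 2 - 2 * ∑ k ∈ K, y k * y k + ∑ k ∈ K, y k ^ 2 = 0 := by
    have e1 : ∑ k ∈ K, y k * y k = ∑ k ∈ K, y k ^ 2 :=
      Finset.sum_congr rfl fun k _ => (sq (y k)).symm
    rw [e1]
    ring
  rw [e] at h2
  exact h2

include hU hσ hs hT hx hS hirr hne hy hM in
/-- the mean values of the powers -/
theorem has_prod (r : ℕ) : Has (fun v => T v ^ r * RR ψ 0 σ v)
    (avC U (prodF U K ρ hρ ψ hψ y r).f).re := by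
  classical
  refine ⟨⟨s ^ r * n', fun v => ?_⟩, ?_⟩
  · rw [abs_mul, abs_pow]
    exact mul_le_mul (pow_le_pow_left₀ (abs_nonneg _) (hT v) r) (abs_RR_le U ψ hψ _ _ _)
      (abs_nonneg _) (by positivity)
  · set b : ℝ := max s (∑ k ∈ K, |y k| * n k) with hb
    have hZ : Tendsto (fun ε : ℝ => (EP (nm F) ε fun v => T v ^ r * RR ψ 0 σ v) / lam ε -
        (fun ε : ℝ => (EP (nm F) ε fun v => T v ^ r * RR ψ 0 σ v) / lam ε) ε)
        (𝓝[>] 0) (𝓝 0) := by
      simp only [sub_self]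
      exact tendsto_const_nhds
    have hc := fun η hη => core U hU K ρ hρ σ hσ hs hT hx hS ψ hψ hirr hne y (b := b)
      (le_max_left _ _) (fun q => (dF_bound U K ρ hρ y q).trans (le_max_right _ _)) r hZ
      (η := η) hη
    have hq := Qn_lim K hy hM
    have hq2 : Tendsto (fun ε => r * b ^ (r - 1) * n' * Real.sqrt (S ε -
        2 * ∑ k ∈ K, y k * x k ε + ∑ k ∈ K, y k ^ 2)) (𝓝[>] 0) (𝓝 0) := by
      have h1 := ((Real.continuous_sqrt.tendsto 0).comp hq).const_mul (r * b ^ (r - 1) * n')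
      rw [Real.sqrt_zero, mul_zero] at h1
      exact h1
    rw [Metric.tendsto_nhds]
    intro η hη
    filter_upwards [hc (η / 2) (by positivity), hq2.eventually_lt_const
      (show (0 : ℝ) < η / 2 by positivity)] with ε h1 h2
    rw [Real.dist_eq]
    linarith

include hU hσ hs hT hx hS hirr hne hy hM in
/-- the virtual character is real -/
theorem dF_real (q : GK F ⧸ U) : ((dF U K ρ hρ y).f q).im = 0 := by
  classical
  let _ : Fintype (GK F ⧸ U) := Fintype.ofFinite _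
  have hQ := Qv_mean U hU K ρ hρ σ hσ hs hT hx hS hirr hne y
  have hQ2 := hQ.add (Qn_lim K hy hM)
  rw [add_zero] at hQ2
  obtain ⟨-, him⟩ := (imF (dF U K ρ hρ y)).has hU σ hσ 0
  rw [if_pos rfl] at him
  have e0 : (avC U (imF (dF U K ρ hρ y)).f).re =
      avR U fun q => ((dF U K ρ hρ y).f q).im ^ 2 := by
    have : (imF (dF U K ρ hρ y)).f = fun q => ((((dF U K ρ hρ y).f q).im ^ 2 : ℝ) : ℂ) := rfl
    rw [this, avC_ofReal, Complex.ofReal_re]
  rw [e0] at him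
  have hbd : ∀ v, |Qv U K ρ hρ σ T y v| ≤ (s + ∑ k ∈ K, |y k| * n k) ^ 2 := by
    intro v
    unfold Qv
    rw [abs_of_nonneg (sq_nonneg _)]
    refine pow_le_pow_left₀ (norm_nonneg _) ((norm_sub_le _ _).trans (add_le_add ?_
      (dF_bound U K ρ hρ y _))) 2
    rw [Complex.norm_real]
    exact hT v
  have hle : (avR U fun q => ((dF U K ρ hρ y).f q).im ^ 2) ≤ 0 := by
    refine le_of_tendsto_of_tendsto him hQ2 ?_
    filter_upwards [self_mem_nhdsWithin, lam_tendsto.eventually_gt_atTop 0] with ε h1 h2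
    have e1 : EP (nm F) ε (Qv U K ρ hρ σ T y) / lam ε -
        (S ε - 2 * ∑ k ∈ K, y k * x k ε + ∑ k ∈ K, y k ^ 2) +
        (S ε - 2 * ∑ k ∈ K, y k * x k ε + ∑ k ∈ K, y k ^ 2) =
        EP (nm F) ε (Qv U K ρ hρ σ T y) / lam ε := by ring
    rw [e1]
    refine div_le_div_of_nonneg_right ?_ h2.le
    refine EP_mono (B := (s + ∑ k ∈ K, |y k| * n k) ^ 2)
      (B' := (s + ∑ k ∈ K, |y k| * n k) ^ 2) (fun v => ?_) hbd (fun v => ?_) h1
    all_goals
      have e2 : (imF (dF U K ρ hρ y)).R 0 σ v =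
          ((dF U K ρ hρ y).f (QuotientGroup.mk (σ v))).im ^ 2 := by
        unfold CF.R
        rw [zz_zero, mul_one]
        exact Complex.ofReal_re _
      have e3 : ((dF U K ρ hρ y).f (QuotientGroup.mk (σ v))).im ^ 2 ≤ Qv U K ρ hρ σ T y v := by
        unfold Qv
        rw [← Complex.normSq_eq_norm_sq, Complex.normSq_apply, Complex.sub_re, Complex.sub_im,
          Complex.ofReal_re, Complex.ofReal_im]
        nlinarith [sq_nonneg (T v - ((dF U K ρ hρ y).f (QuotientGroup.mk (σ v))).re)]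
    · rw [e2, abs_of_nonneg (sq_nonneg _)]
      exact e3.trans ((le_abs_self _).trans (hbd v))
    · rw [e2]
      exact e3
  have h0 : (0 : ℝ) < Nat.card (GK F ⧸ U) := by exact_mod_cast Nat.card_pos
  unfold avR at hle
  rw [finsum_eq_sum_of_fintype] at hle
  have h1 : ∑ q, ((dF U K ρ hρ y).f q).im ^ 2 ≤ 0 := by
    by_contra hcon
    rw [not_le] at hcon
    have := mul_pos (inv_pos.2 h0) hcon
    linarith
  have h2 := Finset.single_le_sum (f := fun q => ((dF U K ρ hρ y).f q).im ^ 2)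
    (fun q _ => sq_nonneg _) (Finset.mem_univ q)
  have h3 : ((dF U K ρ hρ y).f q).im ^ 2 ≤ 0 := h2.trans h1
  nlinarith [sq_nonneg ((dF U K ρ hρ y).f q).im]

theorem one_triv : ∀ u ∈ U, (1 : Representation ℂ (GK F) (Fin 1 → ℂ)) u = 1 := fun _ _ => rfl

include hU hσ hs hT hx hS hirr hne hy hM in
/-- the even moments -/
theorem even_mom (j : ℕ) : Has (fun v => T v ^ (2 * j))
    (avR U fun q => ‖(dF U K ρ hρ y).f q‖ ^ (2 * j)) := by
  classical
  have h1 := has_prod U hU K ρ hρ σ hσ hs hT hx hS (1 : Representation ℂ (GK F) (Fin 1 → ℂ))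
    (one_triv U) hirr hne hy hM (2 * j)
  refine h1.congr (fun v => by rw [RR_one, mul_one]) ?_
  have e1 : (prodF U K ρ hρ (1 : Representation ℂ (GK F) (Fin 1 → ℂ)) (one_triv U) y (2 * j)).f =
      fun q => ((‖(dF U K ρ hρ y).f q‖ ^ (2 * j) : ℝ) : ℂ) := by
    funext q
    have hr := dF_real U hU K ρ hρ σ hσ hs hT hx hS hirr hne hy hM q
    have e2 : (dF U K ρ hρ y).f q = ((((dF U K ρ hρ y).f q).re : ℝ) : ℂ) :=
      Complex.ext rfl (by rw [hr, Complex.ofReal_im])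
    have e3 : (chF U (fun _ : Unit => (1 : Representation ℂ (GK F) (Fin 1 → ℂ)))
        (fun _ => one_triv U) ()).f q = 1 := by
      obtain ⟨g, hg⟩ := QuotientGroup.mk_surjective q⁻¹
      change (qrep U (1 : Representation ℂ (GK F) (Fin 1 → ℂ)) (one_triv U)).character q⁻¹ = _
      rw [← hg]
      change LinearMap.trace ℂ (Fin 1 → ℂ) (1 : Module.End ℂ (Fin 1 → ℂ)) = 1
      rw [LinearMap.trace_one]
      simp
    change (dF U K ρ hρ y).f q ^ (2 * j) * (chF U (fun _ : Unit =>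
      (1 : Representation ℂ (GK F) (Fin 1 → ℂ))) (fun _ => one_triv U) ()).f q = _
    rw [e3, mul_one, e2, Complex.norm_real, Real.norm_eq_abs, ← Complex.ofReal_pow, pow_mul,
      pow_mul, sq_abs]
  rw [e1, avC_ofReal, Complex.ofReal_re]

include hU hσ hs hT hx hS hirr hne hy hM in
/-- the virtual character is bounded by the bound of the function -/
theorem dF_le (q : GK F ⧸ U) : ‖(dF U K ρ hρ y).f q‖ ≤ s := by
  classical
  let _ : Fintype (GK F ⧸ U) := Fintype.ofFinite _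
  have h0 : (0 : ℝ) < Nat.card (GK F ⧸ U) := by exact_mod_cast Nat.card_pos
  refine le_of_pow (norm_nonneg _) hs (C := Nat.card (GK F ⧸ U)) fun j hj => ?_
  obtain ⟨-, h1⟩ := even_mom U hU K ρ hρ σ hσ hs hT hx hS hirr hne hy hM j
  have h2 : (avR U fun q => ‖(dF U K ρ hρ y).f q‖ ^ (2 * j)) ≤ s ^ (2 * j) * 1 := by
    refine le_of_tendsto_of_tendsto h1 ((EP_one F).const_mul (s ^ (2 * j))) ?_
    filter_upwards [self_mem_nhdsWithin, lam_tendsto.eventually_gt_atTop 0] with ε h3 h4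
    rw [← mul_div_assoc, ← EP_const_mul]
    refine div_le_div_of_nonneg_right ?_ h4.le
    have h5 : ∀ v, |T v ^ (2 * j)| ≤ s ^ (2 * j) := fun v => by
      rw [abs_pow]
      exact pow_le_pow_left₀ (abs_nonneg _) (hT v) _
    refine EP_mono (B := s ^ (2 * j)) (B' := s ^ (2 * j)) h5 (fun v => ?_) (fun v => ?_) h3
    · rw [mul_one, abs_of_nonneg (by positivity)]
    · rw [mul_one]
      exact (le_abs_self _).trans (h5 v)
  unfold avR at h2
  rw [finsum_eq_sum_of_fintype, mul_one] at h2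
  have h3 := Finset.single_le_sum (f := fun q => ‖(dF U K ρ hρ y).f q‖ ^ (2 * j))
    (fun q _ => by positivity) (Finset.mem_univ q)
  have h4 : (Nat.card (GK F ⧸ U) : ℝ) * ((Nat.card (GK F ⧸ U) : ℝ)⁻¹ *
      ∑ q, ‖(dF U K ρ hρ y).f q‖ ^ (2 * j)) = ∑ q, ‖(dF U K ρ hρ y).f q‖ ^ (2 * j) := by
    rw [← mul_assoc, mul_inv_cancel₀ h0.ne', one_mul]
  have h5 := mul_le_mul_of_nonneg_left h2 h0.le
  rw [h4] at h5
  exact h3.trans h5

include hU hσ hs hT hx hS hirr hne hy hM in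
/-- **The growth of the even moments.** -/
theorem growth (h1 : 0 < ∑ k ∈ K, y k ^ 2) {a : ℝ} (ha : ∀ q, ‖(dF U K ρ hρ y).f q‖ ≤ a)
    (ha' : ∃ q, a ≤ ‖(dF U K ρ hρ y).f q‖) {k : ℕ → ℝ}
    (hk : ∀ j, 1 ≤ j → Has (fun v => T v ^ (2 * j)) (k j)) :
    0 < a ∧ a ≤ s ∧ ∃ c : ℝ, 0 < c ∧ ∀ j, 1 ≤ j → c * a ^ (2 * j) ≤ k j ∧ k j ≤ a ^ (2 * j) := by
  classical
  let _ : Fintype (GK F ⧸ U) := Fintype.ofFinite _
  have h0 : (0 : ℝ) < Nat.card (GK F ⧸ U) := by exact_mod_cast Nat.card_pos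
  obtain ⟨q₀, hq₀⟩ := ha'
  have ha0 : 0 ≤ a := (norm_nonneg _).trans (ha q₀)
  have hq1 : ‖(dF U K ρ hρ y).f q₀‖ = a := le_antisymm (ha q₀) hq₀
  have has : a ≤ s := hq₀.trans (dF_le U hU K ρ hρ σ hσ hs hT hx hS hirr hne hy hM q₀)
  have hkv : ∀ j, 1 ≤ j → k j = avR U fun q => ‖(dF U K ρ hρ y).f q‖ ^ (2 * j) := fun j hj =>
    tendsto_nhds_unique (hk j hj).2
      (even_mom U hU K ρ hρ σ hσ hs hT hx hS hirr hne hy hM j).2
  -- the upper bound
  have hup : ∀ j, (avR U fun q => ‖(dF U K ρ hρ y).f q‖ ^ (2 * j)) ≤ a ^ (2 * j) := by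
    intro j
    unfold avR
    rw [finsum_eq_sum_of_fintype, inv_mul_le_iff₀ h0]
    refine (Finset.sum_le_sum (g := fun _ => a ^ (2 * j)) fun q _ =>
      pow_le_pow_left₀ (norm_nonneg _) (ha q) _).trans ?_
    rw [Finset.sum_const, nsmul_eq_mul, Finset.card_univ, ← Nat.card_eq_fintype_card]
  have hlow : ∀ j, (Nat.card (GK F ⧸ U) : ℝ)⁻¹ * a ^ (2 * j) ≤
      avR U fun q => ‖(dF U K ρ hρ y).f q‖ ^ (2 * j) := by
    intro j
    unfold avR
    rw [finsum_eq_sum_of_fintype]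
    refine mul_le_mul_of_nonneg_left ?_ (by positivity)
    have h3 := Finset.single_le_sum (f := fun q => ‖(dF U K ρ hρ y).f q‖ ^ (2 * j))
      (fun q _ => by positivity) (Finset.mem_univ q₀)
    rw [hq1] at h3
    exact h3
  have ha1 : 0 < a := by
    rcases ha0.eq_or_lt with h | h
    · exfalso
      have h2 := even_mom U hU K ρ hρ σ hσ hs hT hx hS hirr hne hy hM 1
      have h3 : (avR U fun q => ‖(dF U K ρ hρ y).f q‖ ^ (2 * 1)) = ∑ k ∈ K, y k ^ 2 := by
        have h4 := hS.add hM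
        rw [zero_add] at h4
        refine tendsto_nhds_unique h2.2 (h4.congr fun ε => ?_)
        have e : (fun v => T v ^ (2 * 1)) = fun v => T v * T v := by
          funext v
          ring
        rw [e]
        ring
      have h5 := hup 1
      rw [h3, ← h] at h5
      norm_num at h5
      linarith
    · exact h
  refine ⟨ha1, has, (Nat.card (GK F ⧸ U) : ℝ)⁻¹, by positivity, fun j hj => ?_⟩
  rw [hkv j hj]
  exact ⟨hlow j, hup j⟩

end

end Pool.Agent.Q284.TP
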