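import Pool.Agent.Q284.TP.Lim
import Pool.Agent.Q284.TP.Defs

/-! The tensor powers of the transcendental part and the defects of the Artin twists. -/

set_option autoImplicit false

namespace Pool.Agent.Q284.TP

open Complex Filter Topology ComplexConjugate NumberField IsDedekindDomain Polynomial
  Pool.Agent.W401.Cheb Pool.Agent.W540.BE Pool.Agent.W353.L1 Pool.Agent.Y139.SM
open Pool.Agent.H341R2 (lam lam_tendsto)
open Pool.Agent.W353.TD (ch IsPart tF_sub_le rank)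
open Pool.Agent.W353.PV (tF)
open Pool.Agent.W353.EF (LFun)
open Pool.Agent.W353.EH (edgePoint size)
open Pool.Agent.W353.AT (tC abs_tC IsArtin exists_common tw_C IsTwistedSystem
  twistRank TwistDefect)

section
variable {K : Type} [Field K] [NumberField K]

variable (U : Subgroup (GK K)) [U.Normal] [Finite (GK K ⧸ U)] {κ : Type} [Fintype κ] {n : κ → ℕ}
  (χ : ∀ k, Representation ℂ (GK K) (Fin (n k) → ℂ)) (hχ : ∀ k, ∀ u ∈ U, χ k u = 1)
  {n' : ℕ} (ψ : Representation ℂ (GK K) (Fin n' → ℂ)) (hψ : ∀ u ∈ U, ψ u = 1)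

theorem dF_virt (y : κ → ℝ) (g : GK K) :
    (dF U Finset.univ χ hχ y).f (QuotientGroup.mk g⁻¹) = virt χ y g := by
  unfold dF virt
  refine Finset.sum_congr rfl fun k _ => ?_
  have h3 : (chF U χ hχ k).f (QuotientGroup.mk g⁻¹) = (χ k).character g := by
    change (qrep U (χ k) (hχ k)).character (QuotientGroup.mk g⁻¹ : GK K ⧸ U)⁻¹ = _
    have e : ((QuotientGroup.mk g⁻¹ : GK K ⧸ U))⁻¹ = QuotientGroup.mk g := by
      rw [QuotientGroup.mk_inv, inv_inv]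
    rw [e]
    rfl
  rw [h3]

theorem mean_eq (y : κ → ℝ) (r : ℕ) : (avC U (prodF U Finset.univ χ hχ ψ hψ y r).f).re =
    meanRe U (fun g => virt χ y g ^ r * ψ.character g) := by
  classical
  let _ : Fintype (GK K ⧸ U) := Fintype.ofFinite _
  unfold avC meanRe
  rw [finsum_eq_sum_of_fintype, finsum_eq_sum_of_fintype, ← Equiv.sum_comp (Equiv.inv (GK K ⧸ U))]
  have e1 : ∀ q : GK K ⧸ U, (prodF U Finset.univ χ hχ ψ hψ y r).f (Equiv.inv (GK K ⧸ U) q) =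
      virt χ y q.out ^ r * ψ.character q.out := by
    intro q
    have e2 : (Equiv.inv (GK K ⧸ U) q) = QuotientGroup.mk (q.out)⁻¹ := by
      rw [Equiv.inv_apply, QuotientGroup.mk_inv]
      congr 1
      exact (QuotientGroup.out_eq' q).symm
    rw [e2]
    change (dF U Finset.univ χ hχ y).f _ ^ r * (chF U (fun _ : Unit => ψ) (fun _ => hψ) ()).f _ = _
    rw [dF_virt]
    have e3 : (chF U (fun _ : Unit => ψ) (fun _ => hψ) ()).f (QuotientGroup.mk (q.out)⁻¹) =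
        ψ.character q.out := by
      change (qrep U ψ hψ).character (QuotientGroup.mk (q.out)⁻¹ : GK K ⧸ U)⁻¹ = _
      have e : ((QuotientGroup.mk (q.out)⁻¹ : GK K ⧸ U))⁻¹ = QuotientGroup.mk q.out := by
        rw [QuotientGroup.mk_inv, inv_inv]
      rw [e]
      rfl
    rw [e3]
  rw [Finset.sum_congr rfl fun q _ => e1 q]
  have e3 : ((Nat.card (GK K ⧸ U) : ℂ))⁻¹ = (((Nat.card (GK K ⧸ U) : ℝ)⁻¹ : ℝ) : ℂ) := by
    push_cast
    rfl
  rw [e3, Complex.re_ofReal_mul, Complex.re_sum, div_eq_inv_mul]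

variable {l : ℕ} {X : Set (MvPolynomial (Fin l) (𝓞 K))}
  {d m N : ℕ} {V : Type} [AddCommGroup V] [Module ℚ V] [FiniteDimensional ℚ V]
  {ρ : Representation ℚ (GK K) V}

omit [U.Normal] [Finite (GK K ⧸ U)] in
include hχ in
theorem artin_of (hU : IsOpen (U : Set (GK K))) (k : κ) : IsArtin (χ k) := ⟨U, hU, hχ k⟩

/-- the second moment -/
theorem second (hm : 2 * m ≤ 2 * d) (hV : IsPart X d m N ρ)
    {σ : HeightOneSpectrum (𝓞 K) → GK K} (hσ : ∀ v, IsFrob v (σ v))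
    (B₂ : HeightOneSpectrum (𝓞 K) → ℂ[X])
    (hB₂ : IsTensorSystem X d m N ρ 2 (1 : Representation ℂ (GK K) (Fin 1 → ℂ)) B₂) :
    Tendsto (fun ε : ℝ => (EP (nm K) ε fun v => tC ρ X d (2 * m) N (N - Module.finrank ℚ V) σ v *
      tC ρ X d (2 * m) N (N - Module.finrank ℚ V) σ v) / lam ε -
      size (2 * (2 * m)) 0 B₂ ε) (𝓝[>] 0) (𝓝 0) := by
  have g1 := (tensor_size hm hσ (good_of_part hm hV hσ) 2 _ one_artin B₂ hB₂).2
  refine g1.congr fun ε => ?_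
  simp only [RR_one, mul_one, sq]

include hχ hψ in
/-- **The inequality without continuation.** -/
theorem partOne (hmd : m ≤ d) (hV : IsPart X d m N ρ) (hU : IsOpen (U : Set (GK K)))
    (hirr : ∀ k, (χ k).IsIrreducible) (hne : ∀ k k', k ≠ k' → IsEmpty ((χ k).Equiv (χ k')))
    (y : κ → ℝ) {b : ℝ} (hb : ((N - Module.finrank ℚ V : ℕ) : ℝ) ≤ b)
    (hDb : ∀ g, ‖virt χ y g‖ ≤ b) (B : κ → HeightOneSpectrum (𝓞 K) → ℂ[X])
    (B₂ B' : HeightOneSpectrum (𝓞 K) → ℂ[X]) (r : ℕ)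
    (hB : ∀ k, IsTwistedSystem X d (2 * m) N (χ k) 0 (B k))
    (hB₂ : IsTensorSystem X d m N ρ 2 (1 : Representation ℂ (GK K) (Fin 1 → ℂ)) B₂)
    (hB' : IsTensorSystem X d m N ρ r ψ B') :
    (∀ᶠ ε : ℝ in 𝓝[>] 0, LFun B' (edgePoint (2 * (r * m)) 0 + ε) ≠ 0) ∧
    ∀ η : ℝ, 0 < η → ∀ᶠ ε : ℝ in 𝓝[>] 0,
      |size (2 * (r * m)) 0 B' ε - meanRe U (fun g => virt χ y g ^ r * ψ.character g)| ≤
        r * b ^ (r - 1) * n' * Real.sqrt (size (2 * (2 * m)) 0 B₂ ε -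
          2 * ∑ k, y k * (size (2 * m) 0 (B k) ε - twistRank ρ (χ k)) + ∑ k, y k ^ 2) + η := by
  classical
  have hm : 2 * m ≤ 2 * d := by omega
  choose σ hσ using exists_isFrob (F := K)
  have hgood := good_of_part hm hV hσ
  have hA := artin_of U χ hχ hU
  have g1 := fun k => tw_C hm hσ hgood hV.1 ⟨n k, χ k⟩ (hA k) (B k) (hB k)
  have g2 := second hm hV hσ B₂ hB₂
  have g3 := tensor_size hm hσ hgood r ψ ⟨U, hU, hψ⟩ B' hB'
  refine ⟨g3.1, fun η hη => ?_⟩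
  have h := core U hU Finset.univ χ hχ σ hσ (Nat.cast_nonneg (N - Module.finrank ℚ V))
    (T := tC ρ X d (2 * m) N (N - Module.finrank ℚ V) σ) (fun v => abs_tC _ _ _ _ _ _ _ _)
    (x := fun k ε => size (2 * m) 0 (B k) ε - twistRank ρ (χ k)) (fun k _ => (g1 k).2)
    (S := size (2 * (2 * m)) 0 B₂) g2 ψ hψ (fun k _ => hirr k)
    (fun k _ k' _ h => hne k k' h) y hb (fun q => by
      obtain ⟨g, hg⟩ := QuotientGroup.mk_surjective q
      have h1 := dF_virt U χ hχ y g⁻¹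
      rw [inv_inv, hg] at h1
      rw [h1]
      exact hDb _) r g3.2 hη
  rw [mean_eq U χ hχ ψ hψ] at h
  exact h

omit U [U.Normal] [Finite (GK K ⧸ U)] in
/-- the data in the case of equality -/
theorem data (hmd : m ≤ d) (hV : IsPart X d m N ρ)
    {σ : HeightOneSpectrum (𝓞 K) → GK K} (hσ : ∀ v, IsFrob v (σ v))
    {δ : κ → ℤ} (hδ : ∀ k, TwistDefect X d m N ρ (χ k) (δ k)) {M : ℕ}
    (hM : TensorPole X d m N ρ 2 (1 : Representation ℂ (GK K) (Fin 1 → ℂ)) M)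
    (hA : ∀ k, IsArtin (χ k)) :
    ∃ (x : κ → ℝ → ℝ) (S : ℝ → ℝ), (∀ k ∈ (Finset.univ : Finset κ), Tendsto (fun ε : ℝ =>
      (EP (nm K) ε fun v => tC ρ X d (2 * m) N (N - Module.finrank ℚ V) σ v * RR (χ k) 0 σ v) /
        lam ε - x k ε) (𝓝[>] 0) (𝓝 0)) ∧
      Tendsto (fun ε : ℝ => (EP (nm K) ε fun v =>
        tC ρ X d (2 * m) N (N - Module.finrank ℚ V) σ v *
        tC ρ X d (2 * m) N (N - Module.finrank ℚ V) σ v) / lam ε - S ε) (𝓝[>] 0) (𝓝 0) ∧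
      (∀ k ∈ (Finset.univ : Finset κ), Tendsto (x k) (𝓝[>] 0) (𝓝 (-(δ k : ℝ)))) ∧
      Tendsto S (𝓝[>] 0) (𝓝 (M : ℝ)) := by
  have hm : 2 * m ≤ 2 * d := by omega
  have hgood := good_of_part hm hV hσ
  choose B hB hlim using hδ
  obtain ⟨B₂, hB₂, hlim₂⟩ := hM
  refine ⟨fun k ε => size (2 * m) 0 (B k) ε - twistRank ρ (χ k), size (2 * (2 * m)) 0 B₂,
    fun k _ => (tw_C hm hσ hgood hV.1 ⟨n k, χ k⟩ (hA k) (B k) (hB k)).2,
    second hm hV hσ B₂ hB₂, fun k _ => ?_, hlim₂⟩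
  have h1 := (hlim k).sub_const (twistRank ρ (χ k) : ℝ)
  have e : ((twistRank ρ (χ k) : ℝ) - δ k) - twistRank ρ (χ k) = -(δ k : ℝ) := by ring
  rwa [e] at h1

include hχ in
/-- Bessel's inequality -/
theorem partTwo_bessel (hmd : m ≤ d) (hV : IsPart X d m N ρ) (hU : IsOpen (U : Set (GK K)))
    (hirr : ∀ k, (χ k).IsIrreducible) (hne : ∀ k k', k ≠ k' → IsEmpty ((χ k).Equiv (χ k')))
    {δ : κ → ℤ} (hδ : ∀ k, TwistDefect X d m N ρ (χ k) (δ k)) {M : ℕ}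
    (hM : TensorPole X d m N ρ 2 (1 : Representation ℂ (GK K) (Fin 1 → ℂ)) M) :
    ∑ k, δ k ^ 2 ≤ M := by
  choose σ hσ using exists_isFrob (F := K)
  obtain ⟨x, S, hx, hS, hxl, hSl⟩ := data χ hmd hV hσ hδ hM (artin_of U χ hχ hU)
  have h := bessel_two_lim U hU Finset.univ χ hχ (fun _ => 0) σ hσ
    (Nat.cast_nonneg (N - Module.finrank ℚ V))
    (T := tC ρ X d (2 * m) N (N - Module.finrank ℚ V) σ) (fun v => abs_tC _ _ _ _ _ _ _ _)
    hx hS (fun k _ => hirr k) (fun k _ k' _ h _ => hne k k' h) hxl hSl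
  have e : ∑ k, (-(δ k : ℝ)) ^ 2 = ((∑ k, δ k ^ 2 : ℤ) : ℝ) := by
    push_cast
    exact Finset.sum_congr rfl fun k _ => neg_sq _
  rw [e] at h
  exact_mod_cast h

include hχ hψ in
/-- **The case of equality.** -/
theorem partTwo (hmd : m ≤ d) (hV : IsPart X d m N ρ) (hU : IsOpen (U : Set (GK K)))
    (hirr : ∀ k, (χ k).IsIrreducible) (hne : ∀ k k', k ≠ k' → IsEmpty ((χ k).Equiv (χ k')))
    {δ : κ → ℤ} (hδ : ∀ k, TwistDefect X d m N ρ (χ k) (δ k)) {M : ℕ}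
    (hM : TensorPole X d m N ρ 2 (1 : Representation ℂ (GK K) (Fin 1 → ℂ)) M)
    (hδM : ∑ k, δ k ^ 2 = M) :
    (∀ g, (virt χ (fun k => -(δ k : ℝ)) g).im = 0 ∧
      ‖virt χ (fun k => -(δ k : ℝ)) g‖ ≤ (N - Module.finrank ℚ V : ℕ)) ∧
    (∀ (r : ℕ) (B' : HeightOneSpectrum (𝓞 K) → ℂ[X]), IsTensorSystem X d m N ρ r ψ B' →
      Tendsto (size (2 * (r * m)) 0 B') (𝓝[>] 0)
        (𝓝 (meanRe U fun g => virt χ (fun k => -(δ k : ℝ)) g ^ r * ψ.character g))) ∧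
    ∀ B' : HeightOneSpectrum (𝓞 K) → ℂ[X], IsTwistedSystem X d (2 * m) N ψ 0 B' →
      Tendsto (size (2 * m) 0 B') (𝓝[>] 0) (𝓝 (twistRank ρ ψ +
        meanRe U fun g => virt χ (fun k => -(δ k : ℝ)) g * ψ.character g)) := by
  have hm : 2 * m ≤ 2 * d := by omega
  choose σ hσ using exists_isFrob (F := K)
  have hgood := good_of_part hm hV hσ
  obtain ⟨x, S, hx, hS, hxl, hSl⟩ := data χ hmd hV hσ hδ hM (artin_of U χ hχ hU)
  have e : (M : ℝ) = ∑ k, (-(δ k : ℝ)) ^ 2 := by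
    have h1 : ((∑ k, δ k ^ 2 : ℤ) : ℝ) = ((M : ℤ) : ℝ) := by rw [hδM]
    push_cast at h1
    rw [← h1]
    exact Finset.sum_congr rfl fun k _ => (neg_sq _).symm
  rw [e] at hSl
  have hT : ∀ v, |tC ρ X d (2 * m) N (N - Module.finrank ℚ V) σ v| ≤
    ((N - Module.finrank ℚ V : ℕ) : ℝ) := fun v => abs_tC _ _ _ _ _ _ _ _
  have hs : (0 : ℝ) ≤ (N - Module.finrank ℚ V : ℕ) := Nat.cast_nonneg _
  have hprod := fun r => has_prod U hU Finset.univ χ hχ σ hσ hs hT hx hS ψ hψ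
    (fun k _ => hirr k) (fun k _ k' _ h => hne k k' h) hxl hSl r
  refine ⟨fun g => ?_, fun r B' hB' => ?_, fun B' hB' => ?_⟩
  · rw [← dF_virt U χ hχ]
    exact ⟨dF_real U hU Finset.univ χ hχ σ hσ hs hT hx hS
      (fun k _ => hirr k) (fun k _ k' _ h => hne k k' h) hxl hSl _,
      dF_le U hU Finset.univ χ hχ σ hσ hs hT hx hS
      (fun k _ => hirr k) (fun k _ k' _ h => hne k k' h) hxl hSl _⟩
  · have h1 := (hprod r).2
    rw [mean_eq U χ hχ ψ hψ] at h1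
    have h2 := (tensor_size hm hσ hgood r ψ ⟨U, hU, hψ⟩ B' hB').2
    have h3 := h1.sub h2
    rw [sub_zero] at h3
    refine h3.congr fun ε => ?_
    ring
  · have h1 := (hprod 1).2
    rw [mean_eq U χ hχ ψ hψ] at h1
    simp only [pow_one] at h1
    have h2 := (tw_C hm hσ hgood hV.1 ⟨n', ψ⟩ ⟨U, hU, hψ⟩ B' hB').2
    have h3 := (h1.sub h2).const_add (twistRank ρ ψ : ℝ)
    rw [sub_zero] at h3
    refine h3.congr fun ε => ?_
    ring

include hχ in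
/-- the growth of the orders of the even tensor powers -/
theorem partThree (hmd : m ≤ d) (hV : IsPart X d m N ρ) (hU : IsOpen (U : Set (GK K)))
    (hirr : ∀ k, (χ k).IsIrreducible) (hne : ∀ k k', k ≠ k' → IsEmpty ((χ k).Equiv (χ k')))
    {δ : κ → ℤ} (hδ : ∀ k, TwistDefect X d m N ρ (χ k) (δ k)) {k : ℕ → ℕ}
    (hk : ∀ r, 1 ≤ r →
      TensorPole X d m N ρ (2 * r) (1 : Representation ℂ (GK K) (Fin 1 → ℂ)) (k r))
    (hk1 : 1 ≤ k 1) (hδM : ∑ k, δ k ^ 2 = k 1) {a : ℝ}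
    (ha : ∀ g, ‖virt χ (fun k => -(δ k : ℝ)) g‖ ≤ a)
    (ha' : ∃ g, a ≤ ‖virt χ (fun k => -(δ k : ℝ)) g‖) :
    0 < a ∧ a ≤ (N - Module.finrank ℚ V : ℕ) ∧ ∃ c : ℝ, 0 < c ∧ ∀ r, 1 ≤ r →
      c * a ^ (2 * r) ≤ k r ∧ (k r : ℝ) ≤ a ^ (2 * r) := by
  have hm : 2 * m ≤ 2 * d := by omega
  choose σ hσ using exists_isFrob (F := K)
  obtain ⟨x, S, hx, hS, hxl, hSl⟩ := data χ hmd hV hσ hδ (hk 1 le_rfl)
    (artin_of U χ hχ hU)
  have e : (k 1 : ℝ) = ∑ k, (-(δ k : ℝ)) ^ 2 := by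
    have h1 : ((∑ k, δ k ^ 2 : ℤ) : ℝ) = ((k 1 : ℤ) : ℝ) := by rw [hδM]
    push_cast at h1
    rw [← h1]
    exact Finset.sum_congr rfl fun k _ => (neg_sq _).symm
  rw [e] at hSl
  have hT : ∀ v, |tC ρ X d (2 * m) N (N - Module.finrank ℚ V) σ v| ≤
    ((N - Module.finrank ℚ V : ℕ) : ℝ) := fun v => abs_tC _ _ _ _ _ _ _ _
  have hs : (0 : ℝ) ≤ (N - Module.finrank ℚ V : ℕ) := Nat.cast_nonneg _
  refine growth U hU Finset.univ χ hχ σ hσ hs hT hx hS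
      (fun k _ => hirr k) (fun k _ k' _ h => hne k k' h) hxl hSl ?_ (fun q => ?_) ?_
      (k := fun r => (k r : ℝ)) (fun r hr => ?_)
  · rw [← e]
    exact_mod_cast hk1
  · obtain ⟨g, hg⟩ := QuotientGroup.mk_surjective q
    have h1 := dF_virt U χ hχ (fun k => -(δ k : ℝ)) g⁻¹
    rw [inv_inv, hg] at h1
    rw [h1]
    exact ha _
  · obtain ⟨g, hg⟩ := ha'
    refine ⟨QuotientGroup.mk g⁻¹, ?_⟩
    rw [dF_virt]
    exact hg
  · refine (has_pow hm hV hσ one_artin (hk r hr)).congr (fun v => ?_) rfl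
    rw [RR_one, mul_one]

end

end Pool.Agent.Q284.TP
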